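import Pool.Agent.E8helper61.EF.Stm

/-!
# Project EF, part TOP
-/

set_option autoImplicit false

open Finset

namespace Pool.Agent.E8helper56.EF

open Pool.Agent.E8helper61.EF

lemma card_ico_le (n a b : ℕ) :
    (univ.filter (fun x : Fin n => a ≤ x.val ∧ x.val < b)).card ≤ b - a := by
  rw [← Nat.card_Ico]
  refine Finset.card_le_card_of_injOn (fun x => x.val) ?_ ?_
  · intro x hx
    have := (Finset.mem_filter.mp (Finset.mem_coe.mp hx)).2
    exact Finset.mem_coe.mpr (Finset.mem_Ico.mpr this)
  · intro x _ y _ h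
    exact Fin.ext h

lemma le_card_lt (n m : ℕ) (h : m ≤ n) :
    m ≤ (univ.filter (fun x : Fin n => x.val < m)).card := by
  have h1 : (univ.map (Fin.castLEEmb h)) ⊆ (univ.filter (fun x : Fin n => x.val < m)) := by
    intro x hx
    obtain ⟨y, _, rfl⟩ := Finset.mem_map.mp hx
    exact Finset.mem_filter.mpr ⟨Finset.mem_univ _, y.2⟩
  have h2 := Finset.card_le_card h1
  rwa [Finset.card_map, Finset.card_univ, Fintype.card_fin] at h2

lemma key (hMove : MoveStatement) (n k d M : ℕ) (A : Finset (Finset (Fin n))) (hk : 1 ≤ k)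
    (hkd : k ≤ d) (hM : 2 * d ≤ M) (hMn : M ≤ n) (hD : Down A) (hS : Shifted A)
    (hKU : KU k d A) (hblk : blk n (d % k) (d / k) ∈ A) (X : Finset (Fin n)) (hX : X ∈ A)
    (hcard : X.card = d / k) (hfar : ∀ x ∈ X, M ≤ x.val)
    (hins : ∀ y : Fin n, y.val < d % k → insert y X ∈ A) : False := by
  obtain ⟨r, hr⟩ : ∃ r, r = d % k := ⟨_, rfl⟩
  obtain ⟨t, ht⟩ : ∃ t, t = d / k := ⟨_, rfl⟩
  rw [← hr, ← ht] at hblk
  rw [← ht] at hcard
  rw [← hr] at hins
  have hd : k * t + r = d := by
    rw [hr, ht]
    exact Nat.div_add_mod d k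
  have hrk : r < k := by
    rw [hr]
    exact Nat.mod_lt _ hk
  have ht1 : 1 ≤ t := by
    rw [ht]
    exact Nat.div_pos hkd hk
  have hkt : (k - 1) * t + t = k * t := by
    have h : k - 1 + 1 = k := by omega
    calc (k - 1) * t + t = (k - 1 + 1) * t := by ring
      _ = k * t := by rw [h]
  obtain ⟨Z, hZ⟩ : ∃ Z : ℕ → Finset (Fin n), ∀ j x, x ∈ Z j ↔ (x.val = j ∧ x.val < r) :=
    ⟨fun j => univ.filter (fun x => x.val = j ∧ x.val < r), fun j x => by simp⟩
  obtain ⟨Y, hY⟩ : ∃ Y : ℕ → Finset (Fin n), ∀ j, Y j =
      univ.filter (fun x => r + t + 1 + j * t ≤ x.val ∧ x.val < r + t + 1 + (j + 1) * t) :=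
    ⟨fun j => univ.filter
      (fun x => r + t + 1 + j * t ≤ x.val ∧ x.val < r + t + 1 + (j + 1) * t), fun j => rfl⟩
  have hZX : ∀ j, Z j ∪ X ∈ A := by
    intro j
    by_cases hj : j < r
    · have hjn : j < n := by omega
      refine hD _ (hins ⟨j, hjn⟩ hj) _ ?_
      intro x hx
      rcases Finset.mem_union.mp hx with h | h
      · exact Finset.mem_insert.mpr (Or.inl (Fin.ext ((hZ j x).mp h).1))
      · exact Finset.mem_insert_of_mem h
    · refine hD _ hX _ ?_
      intro x hx
      rcases Finset.mem_union.mp hx with h | h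
      · have h1 := (hZ j x).mp h
        exact absurd (h1.1 ▸ h1.2) hj
      · exact h
  have hZY : ∀ j, j < k - 1 → Z j ∪ Y j ∈ A := by
    intro j hj
    have hjt : (j + 1) * t ≤ (k - 1) * t := Nat.mul_le_mul_right _ (by omega)
    have hjt2 : (j + 1) * t = j * t + t := by ring
    have h1 := hMove n A hD hS (Z j ∪ X) (hZX j) X (Y j) Finset.subset_union_right (by
        rw [hcard, hY]
        refine (card_ico_le n _ _).trans ?_
        omega) (by
        rw [Finset.disjoint_left]
        intro x hxY hx
        rw [hY] at hxY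
        have h2 := (Finset.mem_filter.mp hxY).2
        obtain ⟨h3, h4⟩ := Finset.mem_sdiff.mp hx
        rcases Finset.mem_union.mp h3 with h | h
        · have := ((hZ j x).mp h).2
          omega
        · exact h4 h) (by
        intro y hy x hx
        rw [hY] at hy
        have h2 := (Finset.mem_filter.mp hy).2
        have h3 := hfar x hx
        rw [Fin.lt_def]
        omega)
    refine hD _ h1 _ ?_
    intro x hx
    rcases Finset.mem_union.mp hx with h | h
    · refine Finset.mem_union_left _
        (Finset.mem_sdiff.mpr ⟨Finset.mem_union_left _ h, fun hxX => ?_⟩)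
      have h2 := ((hZ j x).mp h).2
      have h3 := hfar x hxX
      omega
    · exact Finset.mem_union_right _ h
  have hu := hKU (fun j => if j.val < k - 1 then Z j.val ∪ Y j.val else blk n r t) (by
    intro j
    split_ifs with h
    · exact hZY _ h
    · exact hblk)
  have hsub : (univ.filter (fun x : Fin n => x.val < d + 1)) ⊆
      univ.biUnion (fun j : Fin k => if j.val < k - 1 then Z j.val ∪ Y j.val else blk n r t) := by
    intro x hx
    have hx1 : x.val < d + 1 := (Finset.mem_filter.mp hx).2
    rw [Finset.mem_biUnion]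
    by_cases h1 : x.val < r
    · refine ⟨⟨x.val, by omega⟩, Finset.mem_univ _, ?_⟩
      rw [if_pos (show x.val < k - 1 by omega)]
      exact Finset.mem_union_left _ ((hZ _ _).mpr ⟨rfl, h1⟩)
    · by_cases h2 : x.val ≤ r + t
      · refine ⟨⟨k - 1, by omega⟩, Finset.mem_univ _, ?_⟩
        rw [if_neg (show ¬ k - 1 < k - 1 by omega)]
        exact Finset.mem_filter.mpr ⟨Finset.mem_univ _, by omega, h2⟩
      · have hv1 := Nat.div_add_mod (x.val - (r + t + 1)) t
        have hv2 := Nat.mod_lt (x.val - (r + t + 1)) ht1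
        obtain ⟨j, hj⟩ : ∃ j, j = (x.val - (r + t + 1)) / t := ⟨_, rfl⟩
        rw [← hj] at hv1
        have hjt : j * t = t * j := Nat.mul_comm _ _
        have hjt2 : (j + 1) * t = t * j + t := by ring
        have hjk : j < k - 1 := by
          by_contra hcon
          have h3 : (k - 1) * t ≤ j * t := Nat.mul_le_mul_right _ (by omega)
          omega
        refine ⟨⟨j, by omega⟩, Finset.mem_univ _, ?_⟩
        rw [if_pos (show j < k - 1 from hjk)]
        refine Finset.mem_union_right _ ?_
        change x ∈ Y j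
        rw [hY]
        exact Finset.mem_filter.mpr ⟨Finset.mem_univ _, by omega, by omega⟩
  have h5 := (le_card_lt n (d + 1) (by omega)).trans (Finset.card_le_card hsub)
  omega

theorem top : TopStatement := by
  intro hMove n k d M A hk hkd hM hMn hD hS hKU hblk
  have hrk : d % k < k := Nat.mod_lt _ hk
  have hfarm : ∀ B ∈ A, ∀ x ∈ far M B, M ≤ x.val := fun B _ x hx => (Finset.mem_filter.mp hx).2
  have hfA : ∀ B ∈ A, far M B ∈ A := fun B hB => hD B hB _ (Finset.filter_subset _ _)
  have hclaim : ∀ C ∈ NF A M (d / k), 1 ≤ d % k ∧ ∀ x ∈ C, x.val + 1 < d % k := by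
    intro C hC
    obtain ⟨B, hB, rfl⟩ := Finset.mem_image.mp hC
    obtain ⟨hBA, hBc⟩ := Finset.mem_filter.mp hB
    constructor
    · by_contra h0
      exact key hMove n k d M A hk hkd hM hMn hD hS hKU hblk (far M B) (hfA B hBA) hBc
        (hfarm B hBA) (fun y hy => absurd hy (by omega))
    · intro x hx
      by_contra h0
      obtain ⟨hxB, hxM⟩ := Finset.mem_filter.mp hx
      have hxf : x ∉ far M B := fun h => by
        have := hfarm B hBA x h
        omega
      have h1 : insert x (far M B) ∈ A := by
        refine hD B hBA _ ?_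
        intro z hz
        rcases Finset.mem_insert.mp hz with h | h
        · rw [h]
          exact hxB
        · exact (Finset.mem_filter.mp h).1
      refine key hMove n k d M A hk hkd hM hMn hD hS hKU hblk (far M B) (hfA B hBA) hBc
        (hfarm B hBA) (fun y hy => ?_)
      by_cases hyx : y = x
      · rw [hyx]
        exact h1
      · have hlt : y < x := by
          rw [Fin.lt_def]
          have : y.val ≠ x.val := fun h => hyx (Fin.ext h)
          omega
        have hyf : y ∉ insert x (far M B) := by
          intro h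
          rcases Finset.mem_insert.mp h with h | h
          · exact hyx h
          · have := hfarm B hBA y h
            omega
        have h2 := hS _ h1 y x hlt (Finset.mem_insert_self _ _) hyf
        rwa [Finset.erase_insert hxf] at h2
  by_cases hr : 1 ≤ d % k
  · have hsub : NF A M (d / k) ⊆
        (univ.filter (fun x : Fin n => 0 ≤ x.val ∧ x.val < d % k - 1)).powerset := by
      intro C hC
      refine Finset.mem_powerset.mpr fun x hx => Finset.mem_filter.mpr ⟨Finset.mem_univ _, ?_⟩
      have := (hclaim C hC).2 x hx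
      omega
    have h1 := Finset.card_le_card hsub
    rw [Finset.card_powerset] at h1
    have h2 : 2 ^ (univ.filter (fun x : Fin n => 0 ≤ x.val ∧ x.val < d % k - 1)).card ≤
        2 ^ (d % k - 1) :=
      Nat.pow_le_pow_right (by norm_num) (by simpa using card_ico_le n 0 (d % k - 1))
    calc 2 * (NF A M (d / k)).card ≤ 2 * 2 ^ (d % k - 1) := Nat.mul_le_mul_left _ (h1.trans h2)
      _ = 2 ^ (d % k - 1 + 1) := by ring
      _ = 2 ^ (d % k) := by
        rw [Nat.sub_add_cancel hr]
  · have hem : NF A M (d / k) = ∅ := by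
      rw [Finset.eq_empty_iff_forall_notMem]
      intro C hC
      exact hr (hclaim C hC).1
    rw [hem, Finset.card_empty, Nat.mul_zero]
    exact Nat.zero_le _

end Pool.Agent.E8helper56.EF
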